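import Pool.Agent.Helper94.UP.Sheet

/-! # Row HT (MP_3a8adc_an): `Hf` is tame and Lipschitz -/

open scoped ZeroAtInfty ContDiff NNReal
open Set Filter Topology MeasureTheory

namespace Pool.Agent.Helper94.UP

open Pool.Agent.Helper94.UF Pool.Agent.Helper94.SR

theorem ht_clip_mono (t a b : ℝ) (h : a ≤ b) : clip t a ≤ clip t b := by
  unfold clip
  exact max_le_max le_rfl (min_le_min le_rfl h)

theorem ht_shr (t a b : ℝ) : |(a - clip t a) - (b - clip t b)| ≤ |a - b| := by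
  have h0 : ∀ a b : ℝ, b ≤ a → |(a - clip t a) - (b - clip t b)| ≤ |a - b| := by
    intro a b h
    have h1 := clip_lip t a b
    have h2 := ht_clip_mono t b a h
    rw [abs_of_nonneg (sub_nonneg.2 h)] at h1 ⊢
    have h3 := (abs_le.1 h1).2
    rw [abs_le]
    constructor <;> linarith
  rcases le_total b a with h | h
  · exact h0 a b h
  · rw [abs_sub_comm, abs_sub_comm a b]
    exact h0 b a h

theorem ht_shr_le (t a : ℝ) (ht : 0 < t) : |a - clip t a| ≤ |a| := by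
  have h1 := ht_shr t a 0
  have h2 : clip t 0 = 0 := clip_of_abs_le (by rw [abs_zero]; exact ht.le)
  rw [h2] at h1
  simpa using h1

theorem ht_bdd {Γ : Type*} {φ : Γ → ℝ} (h : IsC0 φ) : ∃ B : ℝ, 0 ≤ B ∧ ∀ γ, |φ γ| ≤ B := by
  have h1 := h 1 one_pos
  refine ⟨1 + ∑ γ ∈ h1.toFinset, |φ γ|, ?_, fun γ => ?_⟩
  · have : 0 ≤ ∑ γ ∈ h1.toFinset, |φ γ| := Finset.sum_nonneg fun _ _ => abs_nonneg _
    linarith
  · have h0 : 0 ≤ ∑ γ ∈ h1.toFinset, |φ γ| := Finset.sum_nonneg fun _ _ => abs_nonneg _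
    by_cases h2 : 1 < |φ γ|
    · have h3 : γ ∈ h1.toFinset := by
        rw [Set.Finite.mem_toFinset]
        exact h2
      have h4 := Finset.single_le_sum (f := fun γ => |φ γ|) (fun _ _ => abs_nonneg _) h3
      have h5 : |φ γ| ≤ ∑ γ ∈ h1.toFinset, |φ γ| := h4
      linarith
    · push Not at h2
      linarith

theorem ht_nonempty {k : WithTop ℕ∞} {X : Type*} [NormedAddCommGroup X] [NormedSpace ℝ X]
    {Γ : Type*} (K : EK k X Γ) (f : X → ℝ) (R t : ℝ) (ht : 0 < t) {φ : Γ → ℝ} (hφ : IsC0 φ) :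
    (hvals K f R t φ).Nonempty := by
  obtain ⟨B, hB, h1⟩ := ht_bdd hφ
  obtain ⟨B', hB', h2⟩ := ht_bdd (K.isC0 0)
  refine ⟨f 0 + R * (B + B'), 0, B + B', by positivity, fun γ => ?_, rfl⟩
  have h3 := ht_shr_le t (φ γ) ht
  have h4 := abs_sub (shr t φ γ) (K.Φ 0 γ)
  have h5 : |shr t φ γ| ≤ |φ γ| := h3
  have h6 := h1 γ
  have h7 := h2 γ
  calc |shr t φ γ - K.Φ 0 γ| ≤ |shr t φ γ| + |K.Φ 0 γ| := abs_sub _ _
    _ ≤ B + B' := by linarith

theorem ht_bddBelow {k : WithTop ℕ∞} {X : Type*} [NormedAddCommGroup X] [NormedSpace ℝ X]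
    {Γ : Type*} (K : EK k X Γ) (f : X → ℝ) (R t : ℝ) (hR : 0 ≤ R) (hf : ∀ x, 0 ≤ f x)
    (φ : Γ → ℝ) : ∀ s ∈ hvals K f R t φ, 0 ≤ s := by
  rintro s ⟨x, r, hr, _, rfl⟩
  exact add_nonneg (hf x) (mul_nonneg hR hr)

theorem ht_one {k : WithTop ℕ∞} {X : Type*} [NormedAddCommGroup X] [NormedSpace ℝ X]
    {Γ : Type*} (K : EK k X Γ) (f : X → ℝ) (R t : ℝ) (ht : 0 < t) (hR : 0 ≤ R)
    (hf : ∀ x, 0 ≤ f x) {φ φ' : Γ → ℝ} (hφ : IsC0 φ) (τ : ℝ) (hτ : 0 ≤ τ)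
    (h : ∀ γ, |φ γ - φ' γ| ≤ τ) :
    sInf (hvals K f R t φ') ≤ sInf (hvals K f R t φ) + R * τ := by
  have h1 : sInf (hvals K f R t φ') - R * τ ≤ sInf (hvals K f R t φ) := by
    refine le_csInf (ht_nonempty K f R t ht hφ) ?_
    rintro s ⟨x, r, hr, hx, rfl⟩
    have h2 : f x + R * (r + τ) ∈ hvals K f R t φ' := by
      refine ⟨x, r + τ, by positivity, fun γ => ?_, rfl⟩
      have h3 := hx γ
      have h4 : |shr t φ γ - shr t φ' γ| ≤ |φ γ - φ' γ| := ht_shr t (φ γ) (φ' γ)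
      have h5 := h γ
      have h6 : shr t φ' γ - K.Φ x γ = (shr t φ γ - K.Φ x γ) - (shr t φ γ - shr t φ' γ) := by ring
      rw [h6]
      refine (abs_sub _ _).trans ?_
      linarith
    have h7 : sInf (hvals K f R t φ') ≤ f x + R * (r + τ) :=
      csInf_le ⟨0, ht_bddBelow K f R t hR hf φ'⟩ h2
    have h8 : R * (r + τ) = R * r + R * τ := by ring
    linarith
  linarith

/-- row HT -/
theorem stHT.{u, v} : ST_HT.{u, v} := by
  intro k X _ _ Γ K f R δ hR hδ hf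
  have ht : 0 < δ * Real.exp (-2) := by positivity
  have hL : ∀ φ φ' : Γ → ℝ, IsC0 φ → IsC0 φ' → ∀ τ, 0 ≤ τ → (∀ γ, |φ γ - φ' γ| ≤ τ) →
      |Hf K f R δ φ - Hf K f R δ φ'| ≤ R * τ := by
    intro φ φ' hφ hφ' τ hτ h
    have h1 := ht_one K f R _ ht hR hf hφ τ hτ h
    have h2 := ht_one K f R _ ht hR hf hφ' τ hτ (fun γ => by rw [abs_sub_comm]; exact h γ)
    unfold Hf
    have h3 : |min 1 (sInf (hvals K f R (δ * Real.exp (-2)) φ)) -
        min 1 (sInf (hvals K f R (δ * Real.exp (-2)) φ'))| ≤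
        |sInf (hvals K f R (δ * Real.exp (-2)) φ) -
          sInf (hvals K f R (δ * Real.exp (-2)) φ')| := by
      have := abs_min_sub_min_le_max 1 (sInf (hvals K f R (δ * Real.exp (-2)) φ)) 1
        (sInf (hvals K f R (δ * Real.exp (-2)) φ'))
      simpa using this
    refine h3.trans ?_
    rw [abs_le]
    constructor <;> linarith
  refine ⟨⟨fun φ _ => ?_, fun φ _ => ?_, ⟨R, hR, hL⟩, ?_⟩, hL⟩
  · exact le_min zero_le_one (Real.sInf_nonneg (ht_bddBelow K f R _ hR hf φ))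
  · exact min_le_left _ _
  · intro φ φ' _ _ G h1 h2 h3
    have h4 : shr (δ * Real.exp (-2)) φ = shr (δ * Real.exp (-2)) φ' := by
      funext γ
      by_cases hγ : γ ∈ G
      · unfold shr
        rw [h1 γ hγ]
      · unfold shr
        rw [clip_of_abs_le (h2 γ hγ), clip_of_abs_le (h3 γ hγ), sub_self, sub_self]
    unfold Hf hvals
    rw [h4]

end Pool.Agent.Helper94.UP
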