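import Pool.Agent.Helper94.UP.Sheet

/-! # Row SM (MP_3a8adc_an): the smooth transition is Lipschitz -/

open scoped ZeroAtInfty ContDiff NNReal
open Set Filter Topology MeasureTheory

namespace Pool.Agent.Helper94.UP

/-- row SM -/
theorem stSM : ST_SM := by
  have hc : Continuous (deriv Real.smoothTransition) :=
    (Real.smoothTransition.contDiff (n := 1)).continuous_deriv le_rfl
  obtain ⟨B, hB⟩ := (isCompact_Icc (a := (0 : ℝ)) (b := 1)).exists_bound_of_continuousOn
    hc.continuousOn
  have hB0 : 0 ≤ B := (norm_nonneg _).trans (hB 0 ⟨le_rfl, zero_le_one⟩)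
  refine ⟨B, hB0, fun s t => ?_⟩
  have hd : ∀ x : ℝ, DifferentiableAt ℝ Real.smoothTransition x := fun x =>
    ((Real.smoothTransition.contDiff (n := 1)).differentiable one_ne_zero) x
  have h1 := Convex.norm_image_sub_le_of_norm_deriv_le (f := Real.smoothTransition)
    (s := Icc (0 : ℝ) 1) (C := B) (x := (projIcc (0 : ℝ) 1 zero_le_one t : ℝ))
    (y := (projIcc (0 : ℝ) 1 zero_le_one s : ℝ)) (fun x _ => hd x) hB (convex_Icc 0 1)
    (projIcc (0 : ℝ) 1 zero_le_one t).2 (projIcc (0 : ℝ) 1 zero_le_one s).2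
  rw [Real.smoothTransition.projIcc, Real.smoothTransition.projIcc, Real.norm_eq_abs,
    Real.norm_eq_abs] at h1
  refine h1.trans (mul_le_mul_of_nonneg_left ?_ hB0)
  exact abs_projIcc_sub_projIcc (a := (0 : ℝ)) (b := 1) (c := s) (d := t) zero_le_one

end Pool.Agent.Helper94.UP
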